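import Pool.Agent.Lib.H87M.Step
import Pool.Agent.Lib.H38S.Gen

/-! # H99M, file Iter: `m` steps, one for each pair of cyclically neighbouring slots (MP_73a90e_al)

After the `m` steps with the pairs of slots `(t, t + 1 mod m)` the word in every slot depends on two of the `m` indices.
So `(3 c) ^ m` relations join `m` words of `|G| ^ 2` bits, if `c` relations are enough for the grid `G`. -/

set_option autoImplicit false

namespace H99M

open H38S H87L H87M

/-- Transport along maps which are injective on the domains. -/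
theorem crM_map {m : ℕ} {X Y I : Type} {D : Fin m → Set X} {D2 : Fin m → Set Y} (s0 : Fin m) (h : CrM m X D I)
    (φ : Fin m → Y → X) (hφ : ∀ s y, y ∈ D2 s → φ s y ∈ D s)
    (hinj : ∀ s y y', y ∈ D2 s → y' ∈ D2 s → φ s y = φ s y' → y = y') : CrM m Y D2 I := by
  obtain ⟨u, hu⟩ := h
  refine ⟨fun t s y => u t s (φ s y), fun Ω K hK c y hD hy hrel => ?_⟩
  have h1 := hu Ω K hK (φ s0 c) (fun z s => φ s (y z s)) (fun z s => hφ s _ (hD z s)) (fun l => ?_) hrel
  · refine of_fac hK h1 fun z z' hz => ?_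
    funext s
    exact hinj s _ _ (hD z s) (hD z' s) (congrFun hz s)
  · refine of_fac hK (hy l) fun z z' hz => ?_
    funext s
    have h2 := congrFun hz s
    by_cases hs : s = l
    · rw [if_pos hs, if_pos hs]
    · rw [if_neg hs, if_neg hs] at h2 ⊢
      rw [h2]

theorem crM_emb {m : ℕ} {X Y I : Type} (s0 : Fin m) (h : CrM m X (fun _ => Set.univ) I) (e : Y → X)
    (he : Function.Injective e) : CrM m Y (fun _ => Set.univ) I :=
  crM_map s0 h (fun _ => e) (fun _ _ _ => Set.mem_univ _) fun _ _ _ _ _ h => he h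

theorem crM_equiv {m : ℕ} {X I J : Type} {D : Fin m → Set X} (h : CrM m X D I) (e : I ≃ J) : CrM m X D J := by
  obtain ⟨u, hu⟩ := h
  refine ⟨fun t => u (e.symm t), fun Ω K hK c x hD hx hrel => hu Ω K hK c x hD hx fun t => ?_⟩
  have h1 := hrel (e t)
  simpa using h1

/-- the slot number `t` modulo `m` -/
def st {m : ℕ} (hm : 2 ≤ m) (t : ℕ) : Fin m := ⟨t % m, Nat.mod_lt _ (by omega)⟩

theorem st_ne {m : ℕ} (hm : 2 ≤ m) (t : ℕ) : st hm t ≠ st hm (t + 1) := by
  intro h
  have h1 : t % m = (t + 1) % m := congrArg Fin.val h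
  have h2 : t ≡ t + 1 [MOD m] := h1
  have h3 := (Nat.modEq_iff_dvd' (Nat.le_succ t)).1 h2
  have h4 : m ∣ 1 := by simpa using h3
  have h5 := Nat.le_of_dvd one_pos h4
  omega

/-- The words after `r` steps: `w g` depends only on the indices of the steps which contain the slot `s`. -/
def DD {m : ℕ} (hm : 2 ≤ m) (G : Type) (r : ℕ) (s : Fin m) : Set ((Fin r → G) → Bool) :=
  {w | ∀ g g' : Fin r → G, (∀ t : Fin r, (s = st hm t ∨ s = st hm (t + 1)) → g t = g' t) → w g = w g'}

theorem crM_steps {m : ℕ} (hm : 2 ≤ m) {k C n : ℕ} (hC : 0 < C) (e : (Fin k → Fin C) → Fin n → Bool)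
    (he : Function.Injective e) (r : ℕ) :
    ∃ (I : Type) (_ : Fintype I), Fintype.card I = (3 * ((2 * C) ^ k * (k * C ^ 2 + 1) * (n + 1))) ^ r ∧
      CrM m ((Fin r → Fin k → Fin C) → Bool) (DD hm (Fin k → Fin C) r) I := by
  induction r with
  | zero =>
    refine ⟨Unit, inferInstance, by simp, ?_⟩
    refine crM_map (st hm 0) (crM_bool m) (fun _ w => w fun t => t.elim0) (fun _ _ _ => Set.mem_univ _) ?_
    intro s y y' _ _ h
    funext g
    have hg : g = fun t => t.elim0 := funext fun t => t.elim0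
    rw [hg]
    exact h
  | succ r ih =>
    obtain ⟨I, hI, hc, h⟩ := ih
    refine ⟨((Fin k → Fin (2 * C)) × Fin (k * C ^ 2 + 1) × Option (Fin n)) × ZMod 3 × I, inferInstance, ?_, ?_⟩
    · simp only [Fintype.card_prod, Fintype.card_fun, Fintype.card_fin, Fintype.card_option, hc, ZMod.card]
      ring
    · refine crM_map (st hm 0) (crM_step hC e he (st_ne hm r) h)
        (fun _ w b g => w (Fin.snoc (α := fun _ => Fin k → Fin C) g b)) ?_ ?_
      · intro s w hw
        refine ⟨fun b g g' hg => hw _ _ fun t => ?_, fun h1 h2 b b' => funext fun g => hw _ _ fun t => ?_⟩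
        · refine Fin.lastCases (fun _ => ?_) (fun t ht => ?_) t
          · rw [Fin.snoc_last, Fin.snoc_last]
          · rw [Fin.snoc_castSucc, Fin.snoc_castSucc]
            exact hg t ht
        · refine Fin.lastCases (fun ht => ?_) (fun t _ => ?_) t
          · rcases ht with ht | ht
            · exact (h1 ht).elim
            · exact (h2 ht).elim
          · rw [Fin.snoc_castSucc, Fin.snoc_castSucc]
      · intro s w w' _ _ h
        funext g
        have h1 := congrFun (congrFun h (g (Fin.last r))) (Fin.init g)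
        simp only [Fin.snoc_init_self] at h1
        exact h1

theorem st_eq {m : ℕ} (hm : 2 ≤ m) (s : Fin m) : st hm s = s := Fin.ext (Nat.mod_eq_of_lt s.2)

/-- the step before the slot `s` -/
def pr {m : ℕ} (hm : 2 ≤ m) (s : Fin m) : Fin m := st hm (s + (m - 1))

theorem st_pr {m : ℕ} (hm : 2 ≤ m) (s : Fin m) : st hm ((pr hm s : ℕ) + 1) = s := by
  have hs := s.2
  apply Fin.ext
  show (((s : ℕ) + (m - 1)) % m + 1) % m = s
  rw [Nat.mod_add_mod]
  have : (s : ℕ) + (m - 1) + 1 = s + m := by omega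
  rw [this, Nat.add_mod_right, Nat.mod_eq_of_lt hs]

theorem pr_ne {m : ℕ} (hm : 2 ≤ m) (s : Fin m) : s ≠ pr hm s := by
  intro h
  have h1 := st_pr hm s
  rw [← h] at h1
  exact st_ne hm s (by rw [h1, st_eq])

theorem crM_sq {m : ℕ} (hm : 2 ≤ m) {k C n : ℕ} (hC : 0 < C) (e : (Fin k → Fin C) → Fin n → Bool)
    (he : Function.Injective e) :
    ∃ (I : Type) (_ : Fintype I), Fintype.card I = (3 * ((2 * C) ^ k * (k * C ^ 2 + 1) * (n + 1))) ^ m ∧
      CrM m ((Fin k → Fin C) × (Fin k → Fin C) → Bool) (fun _ => Set.univ) I := by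
  obtain ⟨I, hI, hc, h⟩ := crM_steps hm hC e he m
  refine ⟨I, hI, hc, crM_map (st hm 0) h (fun s y g => y (g s, g (pr hm s))) ?_ ?_⟩
  · intro s y _ g g' hg
    show y (g s, g (pr hm s)) = y (g' s, g' (pr hm s))
    rw [hg s (Or.inl (st_eq hm s).symm), hg (pr hm s) (Or.inr (st_pr hm s).symm)]
  · intro s y y' _ _ h
    funext p
    have h1 := congrFun h fun t => if t = s then p.1 else p.2
    simp only [if_true, (pr_ne hm s).symm, if_false] at h1
    exact h1

/-- `m` words of `4 ^ i` bits are joined by `(3 cc i) ^ m` relations. -/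
theorem crM_cc {m : ℕ} (hm : 2 ≤ m) (i : ℕ) (B : Type) [Fintype B] (hB : Fintype.card B ≤ 4 ^ i) :
    ∃ (I : Type) (_ : Fintype I), Fintype.card I = (3 * H99E.cc i) ^ m ∧ CrM m (B → Bool) (fun _ => Set.univ) I := by
  obtain ⟨q, hq⟩ : ∃ q : ℕ, q = Nat.sqrt i + 1 := ⟨_, rfl⟩
  have hC : 0 < 2 ^ q := by positivity
  obtain ⟨e, he⟩ := inj_of_le (X := Fin (q * Nat.clog 2 (2 ^ q)) → Bool) (Y := Fin q → Fin (2 ^ q)) (by
    simp only [Fintype.card_fun, Fintype.card_fin, Fintype.card_bool]
    rw [mul_comm q, pow_mul]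
    exact Nat.pow_le_pow_left (Nat.le_pow_clog (by norm_num) _) q)
  obtain ⟨I, hI, hc, h⟩ := crM_sq hm hC e he
  have hcard : 2 ^ i ≤ (2 ^ q) ^ q := by
    rw [← pow_mul]
    exact Nat.pow_le_pow_right (by norm_num) (by rw [hq]; exact (Nat.lt_succ_sqrt i).le)
  obtain ⟨j, hj⟩ := inj_of_le (X := (Fin q → Fin (2 ^ q)) × (Fin q → Fin (2 ^ q))) (Y := B) (by
    simp only [Fintype.card_prod, Fintype.card_fun, Fintype.card_fin]
    calc Fintype.card B ≤ 4 ^ i := hB
      _ = 2 ^ i * 2 ^ i := by rw [← mul_pow]; norm_num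
      _ ≤ _ := Nat.mul_le_mul hcard hcard)
  refine ⟨I, hI, ?_, crM_emb (st hm 0) h (fun y => Function.extend j y fun _ => false) ?_⟩
  · rw [hc]
    unfold H99E.cc
    rw [← hq]
    ring_nf
  · intro y y' h
    funext b
    have h1 := congrFun h (j b)
    simp only [hj.extend_apply] at h1
    exact h1

end H99M
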