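import Pool.Agent.Lib.H38U.Rec
import Pool.Agent.Lib.H38S.Main
import Pool.Agent.Lib.H65Q.Growth
import Pool.Agent.Lib.H99M.Iter

/-! # H99M, file Main: the exponent `(N - 1) / 2` on the level `N` (MP_73a90e_al) -/

set_option autoImplicit false

namespace H99M

open Pool.H87G H38S H87L H87M H65Q

/-- `m` words with letters in `{0, 1} ^ N` generate the word of `L` bits on the level `N`. -/
def P (N L m : ℕ) : Prop :=
  1 ≤ m ∧ ∃ (I : Type) (_ : Fintype I), Fintype.card I = m ∧ Ge N (Fin L → Bool) I (Fin N → Bool)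

/-- `c` relations join `m` words of `L` bits. -/
def Cr (m L c : ℕ) : Prop :=
  ∃ (I : Type) (_ : Fintype I), Fintype.card I = c ∧ CrM m (Fin L → Bool) (fun _ => Set.univ) I

theorem P_mono {N L L' m : ℕ} (hL : L' ≤ L) (h : P N L m) : P N L' m := by
  obtain ⟨h1, I, hI, hc, h⟩ := h
  obtain ⟨e, he⟩ := H38S.inj_of_le (X := Fin L → Bool) (Y := Fin L' → Bool) (by
    simp only [Fintype.card_fun, Fintype.card_fin, Fintype.card_bool]
    exact Nat.pow_le_pow_right (by norm_num) hL)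
  exact ⟨h1, I, hI, hc, ge_emb h e he⟩

theorem Cr_mono {m L L' c : ℕ} (hm : 2 ≤ m) (hL : L' ≤ L) (h : Cr m L c) : Cr m L' c := by
  obtain ⟨I, hI, hc, h⟩ := h
  obtain ⟨e, he⟩ := H38S.inj_of_le (X := Fin L → Bool) (Y := Fin L' → Bool) (by
    simp only [Fintype.card_fun, Fintype.card_fin, Fintype.card_bool]
    exact Nat.pow_le_pow_right (by norm_num) hL)
  exact ⟨I, hI, hc, crM_emb (st hm 0) h e he⟩

theorem ge_option {N : ℕ} {X I Z : Type} (z0 : Z) (h : Ge N X I Z) : Ge N X (Option I) Z := by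
  obtain ⟨g, hg⟩ := h
  exact ⟨fun o x => o.elim z0 fun i => g i x, fun Ω K hK x hx => hg Ω K hK x fun i => hx (some i)⟩

theorem sqrt_le' (i : ℕ) : ((Nat.sqrt i : ℕ) : ℝ) ≤ √(i : ℝ) := Real.nat_sqrt_le_real_sqrt

/-- Level 3. -/
theorem gr_three : Gr 1 (P 3) := by
  refine of_pow (B := 2) le_rfl (A := 2 ^ 8) zero_le_one (by positivity) (fun L L' m => P_mono) fun i => ?_
  obtain ⟨I, hI, hc, h⟩ := geN_TW i
  obtain ⟨e, he⟩ := H38S.inj_of_le (X := Fin (2 ^ 2 ^ i)) (Y := Fin (2 ^ i) → Bool) (by simp)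
  obtain ⟨a, ha⟩ := H38S.inj_of_le (X := Fin 3 → Bool) (Y := Fin 6) (by simp)
  refine ⟨Fintype.card (Option I), ?_, ⟨by rw [Fintype.card_option]; omega, Option I, inferInstance, rfl,
    ge_option (fun _ => false) (ge_alph (ge_emb h e he) a ha)⟩⟩
  have h1 := TW_le i
  have h2 : Fintype.card (Option I) ≤ 2 ^ 8 * 2 ^ i * 2 ^ (10 * Nat.sqrt i) := by
    rw [Fintype.card_option]
    have h3 : 1 ≤ 2 ^ i * 2 ^ (10 * Nat.sqrt i + 7) := Nat.one_le_iff_ne_zero.2 (by positivity)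
    have h4 : 2 ^ 8 * 2 ^ i * 2 ^ (10 * Nat.sqrt i) = 2 * (2 ^ i * 2 ^ (10 * Nat.sqrt i + 7)) := by
      rw [pow_add]
      ring
    omega
  have h5 : ((Fintype.card (Option I) : ℕ) : ℝ) ≤ 2 ^ 8 * 2 ^ i * 2 ^ (10 * Nat.sqrt i) := by
    exact_mod_cast h2
  refine h5.trans ?_
  rw [Nat.cast_ofNat, Real.rpow_one]
  refine mul_le_mul_of_nonneg_left ?_ (by positivity)
  rw [← Real.rpow_natCast]
  refine two_rpow_le ?_
  push_cast
  have h6 := sqrt_le' i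
  have h7 : 0 ≤ √(i : ℝ) := Real.sqrt_nonneg _
  nlinarith

theorem gr_cr {m : ℕ} (hm : 2 ≤ m) : Gr ((m : ℝ) / 2) (Cr m) := by
  refine of_pow (B := 4) (by norm_num) (A := 2 ^ (9 * m) + 8 * m) (by positivity) (by positivity)
    (fun L L' c => Cr_mono hm) fun i => ?_
  obtain ⟨I, hI, hc, h⟩ := crM_cc hm i (Fin (4 ^ i)) (by simp)
  refine ⟨_, ?_, ⟨I, hI, rfl, h⟩⟩
  have h1 := H99E.cc_le i
  have h2 : Fintype.card I ≤ 2 ^ (9 * m) * (2 ^ i) ^ m * 2 ^ (8 * m * Nat.sqrt i) := by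
    rw [hc]
    calc (3 * H99E.cc i) ^ m ≤ (2 ^ 2 * (2 ^ i * 2 ^ (8 * Nat.sqrt i + 7))) ^ m :=
          Nat.pow_le_pow_left (Nat.mul_le_mul (by norm_num) h1) m
      _ = 2 ^ (9 * m) * (2 ^ i) ^ m * 2 ^ (8 * m * Nat.sqrt i) := by
        have e1 : 2 ^ ((8 * Nat.sqrt i + 7) * m) = 2 ^ (8 * m * Nat.sqrt i) * 2 ^ (7 * m) := by
          rw [← pow_add]
          congr 1
          ring
        have e2 : 2 ^ (9 * m) = 2 ^ (2 * m) * 2 ^ (7 * m) := by
          rw [← pow_add]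
          congr 1
          ring
        rw [mul_pow, mul_pow, ← pow_mul 2 2 m, ← pow_mul 2 (8 * Nat.sqrt i + 7) m, e1, e2]
        ring
  have h5 : ((Fintype.card I : ℕ) : ℝ) ≤ 2 ^ (9 * m) * (2 ^ i) ^ m * 2 ^ (8 * m * Nat.sqrt i) := by
    exact_mod_cast h2
  refine h5.trans ?_
  have h6 : (((4 : ℕ) : ℝ) ^ i) ^ ((m : ℝ) / 2) = (2 ^ i) ^ m := by
    have h7 : (((4 : ℕ) : ℝ) ^ i) = ((2 : ℝ) ^ i) ^ (2 : ℝ) := by
      rw [Real.rpow_two, ← pow_mul, mul_comm i 2, pow_mul]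
      norm_num
    rw [h7, ← Real.rpow_mul (by positivity), mul_div_cancel₀ _ (by norm_num : (2 : ℝ) ≠ 0), Real.rpow_natCast]
  rw [h6]
  have h8 : (2 : ℝ) ^ (8 * m * Nat.sqrt i) ≤ 2 ^ ((2 ^ (9 * m) + 8 * (m : ℝ)) * √(i : ℝ)) := by
    rw [← Real.rpow_natCast]
    refine two_rpow_le ?_
    push_cast
    have h9 := sqrt_le' i
    have h10 : 0 ≤ √(i : ℝ) := Real.sqrt_nonneg _
    have h11 : (0 : ℝ) ≤ 2 ^ (9 * m) * √(i : ℝ) := by positivity
    have h12 : (8 * (m : ℝ)) * (Nat.sqrt i : ℝ) ≤ 8 * (m : ℝ) * √(i : ℝ) := mul_le_mul_of_nonneg_left h9 (by positivity)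
    linarith
  refine mul_le_mul ?_ h8 (by positivity) (by positivity)
  refine mul_le_mul_of_nonneg_right ?_ (by positivity)
  have : (0 : ℝ) ≤ 8 * (m : ℝ) := by positivity
  linarith

/-- words of letters as words of bits -/
def fl {a b : ℕ} (w : Fin b → Fin a → Bool) (t : Fin (a * b)) : Bool :=
  w (finProdFinEquiv.symm t).2 (finProdFinEquiv.symm t).1

theorem fl_inj {a b : ℕ} : Function.Injective (fl (a := a) (b := b)) := by
  intro w w' h
  funext j i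
  have h1 := congrFun h (finProdFinEquiv (i, j))
  simpa [fl] using h1

theorem unfl_inj {a b : ℕ} :
    Function.Injective fun (w : Fin (a * b) → Bool) (j : Fin b) (i : Fin a) => w (finProdFinEquiv (i, j)) := by
  intro w w' h
  funext t
  have h1 : w (finProdFinEquiv ((finProdFinEquiv.symm t).1, (finProdFinEquiv.symm t).2)) =
      w' (finProdFinEquiv ((finProdFinEquiv.symm t).1, (finProdFinEquiv.symm t).2)) :=
    congrFun (congrFun h (finProdFinEquiv.symm t).2) (finProdFinEquiv.symm t).1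
  rwa [Prod.mk.eta, Equiv.apply_symm_apply] at h1

theorem gr_step {m : ℕ} (hm : 3 ≤ m) {e' : ℝ} (he' : 0 ≤ e') (hee : e' < (m : ℝ) / 2) (h : Gr e' (P m)) :
    Gr ((m : ℝ) / 2) (P (m + 1)) := by
  have hm2 : 2 ≤ m := by omega
  refine step (P' := P m) (Cr := Cr m) (β := m)
    (W := fun q => Fintype.card ((Fin (m * q) → Bool) → Fin m → Fin (m * q) → Bool)) (by omega) he' hee h (gr_cr hm2)
    (fun L L' c => P_mono) ?_ ?_
  · obtain ⟨e, he⟩ := H38S.inj_of_le (X := Fin (m + 1) → Bool) (Y := Fin m → Bool) (by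
      simp only [Fintype.card_fun, Fintype.card_fin, Fintype.card_bool]
      exact Nat.pow_le_pow_right (by norm_num) (Nat.le_succ m))
    exact ⟨1, le_rfl, Unit, inferInstance, rfl, fun _ => e, fun Ω K hK x hx => of_inj hK he (hx ())⟩
  · rintro q l a m' c _ _ ⟨ha, I0, hI0, hc0, h0⟩ ⟨hm', J, hJ, hcJ, hJ'⟩ ⟨IC, hIC, hcC, hC⟩
    obtain ⟨code, hcode⟩ := H38S.inj_of_le (X := Fin (m + 1) → Bool) (Y := Fin m → Bool) (by
      simp only [Fintype.card_fun, Fintype.card_fin, Fintype.card_bool]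
      exact Nat.pow_le_pow_right (by norm_num) (Nat.le_succ m))
    have h3 := H38U.ge_mul hcode h0 (ge_emb hJ' (fl (a := m) (b := l)) fl_inj)
      (crM_emb (st hm2 0) hC (fl (a := m * q) (b := l)) fl_inj)
    have h4 := ge_emb h3 _ (unfl_inj (a := m * q) (b := l))
    refine ⟨?_, _, inferInstance, ?_, h4⟩
    · have := Nat.mul_le_mul ha hm'
      omega
    · rw [Fintype.card_sum, Fintype.card_prod, Fintype.card_prod, hc0, hcJ, hcC]

theorem gr_all (N : ℕ) (hN : 3 ≤ N) : Gr (((N : ℝ) - 1) / 2) (P N) := by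
  induction N, hN using Nat.le_induction with
  | base =>
    have h : (((3 : ℕ) : ℝ) - 1) / 2 = 1 := by norm_num
    rw [h]
    exact gr_three
  | succ m hm ih =>
    have hm' : (3 : ℝ) ≤ m := by exact_mod_cast hm
    have h : (((m + 1 : ℕ) : ℝ) - 1) / 2 = (m : ℝ) / 2 := by
      push_cast
      ring
    rw [h]
    exact gr_step hm (by linarith) (by linarith) ih

theorem d_le_P {F : Set (POp Bool)} {N : ℕ} (hN : 1 ≤ N) (hF : Generates F (Lev N)) {n L m : ℕ} (hn : n ≤ 2 ^ L)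
    (h : P N L m) : d F n ≤ (2 ^ 2 ^ N + 2) * m := by
  obtain ⟨h1, I, hI, hc, h⟩ := h
  obtain ⟨e, he⟩ := H38S.inj_of_le (X := Fin L → Bool) (Y := Fin n) (by simpa using hn)
  obtain ⟨a, ha⟩ := H38S.inj_of_le (X := Fin (2 ^ N)) (Y := Fin N → Bool) (by simp)
  have h2 := d_le' hN hF (n := n) (m := m) (q := 2 ^ N) ⟨I, hI, hc.le, ge_alph (ge_emb h e he) a ha⟩
  nlinarith

/-- The growth on the level `N` has the exponent `(N - 1) / 2`. -/
theorem main (N : ℕ) (hN : 3 ≤ N) : ∃ K : ℝ, 0 < K ∧ ∀ F : Set (POp Bool), Generates F (Lev N) → ∀ n : ℕ, 2 ≤ n →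
    (d F n : ℝ) ≤ K * Real.logb 2 n ^ (((N : ℝ) - 1) / 2) * 2 ^ (K * √(Real.logb 2 (Real.logb 2 n))) := by
  obtain ⟨S, hS⟩ : ∃ S : ℕ → Set ℕ, S = fun n => {x | ∃ F : Set (POp Bool), Generates F (Lev N) ∧ x = d F n} :=
    ⟨_, rfl⟩
  have hN3 : (3 : ℝ) ≤ N := by exact_mod_cast hN
  have hG := gr_all N hN
  have hbd : ∀ n L m, n ≤ 2 ^ L → P N L m → ∀ x ∈ S n, x ≤ (2 ^ 2 ^ N + 2) * m := by
    intro n L m hn hP x hx
    rw [hS] at hx
    obtain ⟨F, hF, rfl⟩ := hx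
    exact d_le_P (by omega) hF hn hP
  obtain ⟨K, hK, h⟩ := final (P := P N) (dn := fun n => sSup (S n)) (B := 2 ^ 2 ^ N + 2) hG (by linarith)
    (fun n L m hn hP => csSup_le' fun x hx => hbd n L m hn hP x hx)
  refine ⟨K, hK, fun F hF n hn => ?_⟩
  refine le_trans ?_ (h n hn)
  obtain ⟨_, _, hG'⟩ := hG
  obtain ⟨m, _, hP⟩ := hG' n (by omega)
  have h1 : d F n ≤ sSup (S n) := le_csSup ⟨_, fun x hx => hbd n n m Nat.lt_two_pow_self.le hP x hx⟩ (by
    rw [hS]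
    exact ⟨F, hF, rfl⟩)
  exact_mod_cast h1

end H99M
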